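import Mathlib

/-! The final real inequality. -/

namespace H52LZ

/-- polynomial inequality at the end (two variables) -/
lemma poly_end {p Z : ℝ} (hp0 : 0 ≤ p) (hp : p ≤ 3/4) (hZ0 : 0 ≤ Z) (hZ : Z ≤ 392/1000) :
    (874/1000) * (57736/100000 * p + 43302/100000) * (1 - 316/1000 * (p * Z)) ≤
      98/100 - 26/15 * (Z * (412/100 * p - 1) / 6 + 206/1000 * (p * Z^2)) := by
  have a : 0 ≤ 392/1000 - Z := by linarith
  have b : 0 ≤ 3/4 - p := by linarith
  have h1 : 0 ≤ p * Z := mul_nonneg hp0 hZ0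
  have h2 : 0 ≤ p * Z * (392/1000 - Z) := mul_nonneg h1 a
  have h3 : 0 ≤ (3/4 - p) * Z := mul_nonneg b hZ0
  have h4 : 0 ≤ (3/4 - p) * (392/1000 - Z) := mul_nonneg b a
  have h5 : 0 ≤ p * (392/1000 - Z) := mul_nonneg hp0 a
  have h6 : 0 ≤ p * Z * (3/4 - p) := mul_nonneg h1 b
  have h7 : 0 ≤ p^2 * Z := by positivity
  nlinarith [h1, h2, h3, h4, h5, h6, h7]

lemma final_ineq {r n x δ η F ε : ℝ} (hr : 3 ≤ r) (hn : n = r + 1) (hx0 : 0 ≤ x)
    (hx : x^2 ≤ 3/4) (hδ : 0 ≤ δ) (hX : n^2 * δ ≤ 392/1000) (hη0 : 0 ≤ η) (hη1 : η ≤ 1)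
    (hxη : η * (2 - η) = x^2 * δ * (4 + δ)) (hF : F ≤ 1311/1000)
    (hε : ε = (2 * η - δ) / 6 + δ * η * (3 * r^2 - 7) / 30) :
    2/3 * x * F * (r / n) * (1 - 158/1000 * η * (r^2 - 4)) ≤
      1 - 2 * (r^2 * ε) + r^2 * (r^2 - 1) * ε^2 ∧ n^2 * η ≤ 63/100 ∧ r^2 * ε ≤ 1/2 := by
  obtain ⟨p, hp⟩ : ∃ p, p = x^2 := ⟨_, rfl⟩
  rw [← hp] at hx hxη
  have hp0 : 0 ≤ p := by rw [hp]; positivity
  have hn4 : 4 ≤ n := by linarith
  have hδ1 : δ ≤ 245/10000 := by
    have : 16 * δ ≤ n^2 * δ := by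
      apply mul_le_mul_of_nonneg_right _ hδ; nlinarith only [hn4]
    linarith
  have hpδ : 0 ≤ p * δ := mul_nonneg hp0 hδ
  have hpδ1 : p * δ ≤ 3/4 * (245/10000) := mul_le_mul hx hδ1 hδ (by norm_num)
  have hη2 : η ≤ 4/100 := by
    by_contra hcon
    push Not at hcon
    have h1 : p * δ * (4 + δ) ≤ 3/4 * (245/10000) * (4 + 245/10000) := by
      apply mul_le_mul hpδ1 (by linarith) (by linarith) (by norm_num)
    have h2 : 0 ≤ (η - 4/100) * (1 - η) := mul_nonneg (by linarith) (by linarith)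
    nlinarith only [h1, h2, hcon, hxη]
  have hη3 : η ≤ 206/100 * (p * δ) := by
    have h1 : η * (196/100) ≤ η * (2 - η) := mul_le_mul_of_nonneg_left (by linarith) hη0
    have h2 : p * δ * (4 + δ) ≤ p * δ * (4 + 245/10000) :=
      mul_le_mul_of_nonneg_left (by linarith) hpδ
    linarith
  have hη4 : 2 * (p * δ) ≤ η := by
    have h1 : 0 ≤ η^2 := sq_nonneg η
    have h2 : 0 ≤ p * δ * δ := mul_nonneg hpδ hδ
    nlinarith only [h1, h2, hxη]
  obtain ⟨Z, hZ⟩ : ∃ Z, Z = r^2 * δ := ⟨_, rfl⟩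
  have hr0 : 0 ≤ r := by linarith
  have hZ0 : 0 ≤ Z := by rw [hZ]; positivity
  have hZ1 : Z ≤ 392/1000 := by
    have : r^2 * δ ≤ n^2 * δ := by
      apply mul_le_mul_of_nonneg_right _ hδ
      exact pow_le_pow_left₀ hr0 (by linarith) 2
    linarith
  have hr2 : 0 ≤ r^2 := by positivity
  have hY1 : η * r^2 ≤ 206/100 * (p * Z) := by
    have := mul_le_mul_of_nonneg_right hη3 hr2
    rw [hZ]; linarith
  have hY2 : 2 * (p * Z) ≤ η * r^2 := by
    have := mul_le_mul_of_nonneg_right hη4 hr2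
    rw [hZ]; linarith
  have hpZ0 : 0 ≤ p * Z := mul_nonneg hp0 hZ0
  have hpZ : p * Z ≤ 3/4 * (392/1000) := mul_le_mul hx hZ1 hZ0 (by norm_num)
  have hY3 : η * r^2 ≤ 63/100 := by linarith
  -- E
  have hE : r^2 * ε ≤ Z * (412/100 * p - 1) / 6 + 206/1000 * (p * Z^2) := by
    have h1 : r^2 * ε = (2 * (η * r^2) - Z) / 6 + Z * (η * r^2) / 10 - 7/30 * (Z * η) := by
      rw [hε, hZ]; ring
    have h2 : Z * (η * r^2) ≤ Z * (206/100 * (p * Z)) := mul_le_mul_of_nonneg_left hY1 hZ0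
    have h3 : 0 ≤ Z * η := mul_nonneg hZ0 hη0
    rw [h1]
    nlinarith only [h2, h3, hY1]
  have hE2 : r^2 * ε ≤ 1/2 := by
    refine hE.trans ?_
    have h1 : p * Z^2 ≤ 3/4 * (392/1000) * (392/1000) := by
      have : p * Z^2 = (p * Z) * Z := by ring
      rw [this]; exact mul_le_mul hpZ hZ1 hZ0 (by norm_num)
    nlinarith only [h1, hpZ, hZ0]
  have hYn : n^2 * η ≤ 63/100 := by
    have h1 : n^2 * η ≤ n^2 * (206/100 * (p * δ)) :=
      mul_le_mul_of_nonneg_left hη3 (by positivity)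
    have h2 : p * (n^2 * δ) ≤ 3/4 * (392/1000) :=
      mul_le_mul hx hX (by positivity) (by norm_num)
    nlinarith only [h1, h2]
  refine ⟨?_, hYn, hE2⟩
  have hRHS : 98/100 - 26/15 * (r^2 * ε) ≤ 1 - 2 * (r^2 * ε) + r^2 * (r^2 - 1) * ε^2 := by
    have h1 : 0 ≤ r^2 * ε^2 * (r^2 / 9 - 1) := by
      apply mul_nonneg (by positivity); nlinarith only [hr]
    have h2 : 0 ≤ (r^2 * ε - 15/100)^2 := sq_nonneg _
    nlinarith only [h1, h2]
  have hLHS1 : (r / n) * (1 - 158/1000 * η * (r^2 - 4)) ≤ 1 - 158/1000 * (η * r^2) := by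
    have hn0 : 0 < n := by linarith
    rw [div_mul_eq_mul_div, div_le_iff₀ hn0, hn]
    have h1 : η * r ≤ 21/100 := by nlinarith only [hY3, hr, hη0, mul_nonneg (mul_nonneg hη0 hr0) (by linarith : 0 ≤ r - 3)]
    nlinarith only [h1, hY3]
  have hLHS2 : (r / n) * (1 - 158/1000 * η * (r^2 - 4)) ≤ 1 - 316/1000 * (p * Z) := by
    linarith
  have hpos : 0 ≤ 1 - 316/1000 * (p * Z) := by linarith
  have hxle : x ≤ 57736/100000 * p + 43302/100000 := by
    rw [hp]; nlinarith only [sq_nonneg (x - 86603/100000), hx0]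
  have hchain : 2/3 * x * F * (r / n) * (1 - 158/1000 * η * (r^2 - 4)) ≤
      (874/1000) * (57736/100000 * p + 43302/100000) * (1 - 316/1000 * (p * Z)) := by
    have h0 : 0 ≤ (r / n) * (1 - 158/1000 * η * (r^2 - 4)) := by
      apply mul_nonneg (by positivity)
      nlinarith only [hY3, hη0]
    calc 2/3 * x * F * (r / n) * (1 - 158/1000 * η * (r^2 - 4))
        = (2/3 * x * F) * ((r / n) * (1 - 158/1000 * η * (r^2 - 4))) := by ring
      _ ≤ (2/3 * x * (1311/1000)) * ((r / n) * (1 - 158/1000 * η * (r^2 - 4))) := by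
          apply mul_le_mul_of_nonneg_right _ h0
          apply mul_le_mul_of_nonneg_left hF (by positivity)
      _ ≤ (2/3 * x * (1311/1000)) * (1 - 316/1000 * (p * Z)) := by
          apply mul_le_mul_of_nonneg_left hLHS2 (by positivity)
      _ = (874/1000) * x * (1 - 316/1000 * (p * Z)) := by ring
      _ ≤ _ := by
          apply mul_le_mul_of_nonneg_right _ hpos
          apply mul_le_mul_of_nonneg_left hxle (by norm_num)
  have hpe := poly_end hp0 hx hZ0 hZ1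
  linarith

end H52LZ
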