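import Pool.Agent.Helper52.LZ.Rp
import Pool.Agent.Helper52.LZ.Fin

/-! Inequality (R) for `ρ^(r+1) ≥ 0.292` (MP_ea8a26). -/

namespace H52LZ

lemma conclude (σ : ℝ) (hσ : 0 < σ) (q : ℂ) (hq1 : 0 ≤ ‖q‖^2 - 1)
    (hy3 : 4 * σ * |q.im| ≤ (1-σ^2) * (‖q‖^2 - 1)) :
    2 * σ * ‖q^2 - 1‖ ≤ (1 + σ^2) * (‖q‖^2 - 1) := by
  have hn : ‖q^2 - 1‖^2 = (‖q‖^2-1)^2 + 4 * q.im^2 := norm_sq_sub_one q
  apply abs_le_of_sq_le_sq' _ (by positivity) |>.2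
  have h1 : (4 * σ * |q.im|)^2 ≤ ((1-σ^2) * (‖q‖^2 - 1))^2 :=
    pow_le_pow_left₀ (by positivity) hy3 2
  have h2 : (4 * σ * |q.im|)^2 = 16 * σ^2 * q.im^2 := by
    rw [mul_pow, sq_abs]; ring
  rw [h2] at h1
  rw [mul_pow, hn]
  nlinarith only [h1]

lemma f_N_le' {x : ℝ} (hx : 0 < x) (h1 : x ≤ 1) (N : ℕ) (h : 292/1000 ≤ x^(2*N)) :
    f x N ≤ 1311/1000 ∧ C x N ≤ 2392/1000 := by
  have hf0 := f_nonneg hx h1 N
  have key : f x N ^ 2 ≤ (1311/1000)^2 := by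
    unfold f
    rw [inv_pow]
    have hp : 0 < x^N := pow_pos hx N
    have h2 : (x^N)⁻¹ * x^N = 1 := inv_mul_cancel₀ hp.ne'
    have h3 : x^(2*N) = (x^N)^2 := by rw [mul_comm, pow_mul]
    have h4 : x^N ≤ 1 := pow_le_one₀ hx.le h1
    rw [h3] at h
    set y := x^N with hy
    set z := y⁻¹ with hz
    have h5 : (z - y)^2 * y^2 = (1 - y^2)^2 := by
      have : (z - y) * y = 1 - y^2 := by linear_combination h2
      rw [← mul_pow, this]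
    have h6 : (1 - y^2)^2 ≤ (1311/1000)^2 * y^2 := by
      have a1 : 0 ≤ y^2 - 292/1000 := by linarith
      have a2 : 0 ≤ 3 - y^2 := by nlinarith
      nlinarith only [mul_nonneg a1 a2, a1]
    have h7 : 0 < y^2 := by positivity
    have h8 : (z-y)^2 * y^2 ≤ (1311/1000)^2 * y^2 := by rw [h5]; exact h6
    exact le_of_mul_le_mul_right h8 h7
  have hC := C_sq hx N
  have hC2 := C_ge hx N
  constructor
  · exact (abs_le_of_sq_le_sq' key (by norm_num)).2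
  · have : C x N ^ 2 ≤ (2392/1000)^2 := by rw [hC]; linarith
    exact (abs_le_of_sq_le_sq' this (by norm_num)).2

/-- the core inequality, `r ≥ 3` -/
lemma core3 (σ : ℝ) (hσ : 0 < σ) (hσ1 : σ < 1) (e : ℂ) (he : ‖e‖ = 1) (h0 : 0 ≤ e.re)
    (hk : ‖1 - ((σ:ℂ) * e)^2‖ ≤ 2 * (1 - σ^2)) (r : ℕ) (hr : 3 ≤ r)
    (h12 : 292/1000 ≤ σ^(2*(r+1))) :
    2 * σ * ‖(Q ((σ:ℂ)*e) r)^2 - 1‖ ≤ (1 + σ^2) * (‖Q ((σ:ℂ)*e) r‖^2 - 1) := by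
  have hD := im_sq_le σ hσ e he hk
  obtain ⟨hF, hCn⟩ := f_N_le' hσ hσ1.le (r+1) h12
  have hq := (C_quad hσ (r+1)).1
  have hC1 := C_ge hσ 1
  have hCs := C_sq hσ 1
  have hsq := e_sq e he
  have hre1 : e.re ≤ 1 := by nlinarith only [hsq, sq_nonneg e.im, h0]
  have hf1 : 0 < f σ 1 := by
    unfold f
    have : 1 < σ⁻¹ := (one_lt_inv₀ hσ).mpr hσ1
    rw [pow_one, pow_one]; linarith
  obtain ⟨x, hx⟩ : ∃ x, x = |e.im| / f σ 1 := ⟨_, rfl⟩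
  have hx0 : 0 ≤ x := by rw [hx]; positivity
  have hxf : x * f σ 1 = |e.im| := by rw [hx]; field_simp
  have hx2f : x^2 * (f σ 1)^2 = e.im^2 := by rw [← mul_pow, hxf, sq_abs]
  have hx2 : x^2 ≤ 3/4 := by
    have h1 : x^2 * (f σ 1)^2 ≤ 3/4 * (f σ 1)^2 := by rw [hx2f]; exact hD
    exact le_of_mul_le_mul_right h1 (by positivity)
  obtain ⟨δ, hδ⟩ : ∃ δ, δ = C σ 1 - 2 := ⟨_, rfl⟩
  obtain ⟨η, hη⟩ : ∃ η, η = 1 - e.re := ⟨_, rfl⟩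
  have hfd : (f σ 1)^2 = δ * (4 + δ) := by
    rw [hδ]; linear_combination -hCs
  have hr3 : (3:ℝ) ≤ r := by exact_mod_cast hr
  obtain ⟨ε, hε⟩ : ∃ ε, ε = (2 * η - δ) / 6 + δ * η * (3 * (r:ℝ)^2 - 7) / 30 := ⟨_, rfl⟩
  have hX : ((r:ℝ)+1)^2 * δ ≤ 392/1000 := by
    rw [← hδ] at hq; push_cast at hq; linarith
  have hxη : η * (2 - η) = x^2 * δ * (4 + δ) := by
    have : x^2 * δ * (4 + δ) = e.im^2 := by rw [← hx2f, hfd]; ring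
    rw [this, hη]; linear_combination -hsq
  obtain ⟨hfin, hYn, hE2⟩ := final_ineq (r := (r:ℝ)) (n := (r:ℝ)+1) (x := x) (δ := δ) (η := η)
    (F := 1311/1000) (ε := ε) hr3 rfl hx0 hx2 (by linarith) hX (by linarith) (by linarith)
    hxη le_rfl hε
  have hM : ((r+1:ℕ):ℝ)^2 * (1 - e.re) ≤ 63/100 := by
    rw [← hη]; push_cast; exact hYn
  have hre := Q_re_ge' σ hσ e he (r+1) hM r (by omega)
  have him := Q_im_le' σ hσ hσ1.le e he (r+1) (by omega) (1311/1000) hF hM r (by omega)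
  obtain ⟨q, hq'⟩ : ∃ q, q = Q ((σ:ℂ)*e) r := ⟨_, rfl⟩
  rw [← hq', ← hδ, ← hη] at hre
  rw [← hq', ← hη] at him
  rw [← hq']
  obtain ⟨A, hA⟩ : ∃ A, A = (r:ℝ)^2 - 1 := ⟨_, rfl⟩
  have hA0 : 0 ≤ A := by rw [hA]; nlinarith only [hr3]
  have hre2 : (r:ℝ) * (1 - A * ε) ≤ q.re := by
    refine le_trans (le_of_eq ?_) hre
    rw [hε, hA]; ring
  have hpos : 0 ≤ (r:ℝ) * (1 - A * ε) := by
    apply mul_nonneg (by linarith)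
    rcases le_total 0 ε with hε0 | hε0
    · have : A * ε ≤ (r:ℝ)^2 * ε := by
        apply mul_le_mul_of_nonneg_right _ hε0; rw [hA]; linarith
      linarith
    · have : A * ε ≤ 0 := mul_nonpos_of_nonneg_of_nonpos hA0 hε0
      linarith
  have hre3 : (r:ℝ)^2 * (1 - A * ε)^2 ≤ q.re^2 := by
    rw [← mul_pow]; exact pow_le_pow_left₀ hpos hre2 2
  have hre4 : A * (1 - 2 * ((r:ℝ)^2 * ε) + (r:ℝ)^2 * ((r:ℝ)^2 - 1) * ε^2) ≤ q.re^2 - 1 := by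
    refine le_trans (le_of_eq ?_) (sub_le_sub_right hre3 1)
    rw [hA]; ring
  have hqn : ‖q‖^2 = q.re^2 + q.im^2 := by
    rw [Complex.sq_norm, Complex.normSq_apply]; ring
  have hB : A * (1 - 2 * ((r:ℝ)^2 * ε) + (r:ℝ)^2 * ((r:ℝ)^2 - 1) * ε^2) ≤ ‖q‖^2 - 1 := by
    rw [hqn]; linarith [sq_nonneg q.im]
  have hfs : σ * f σ 1 = 1 - σ^2 := by
    unfold f
    have : σ⁻¹ * σ = 1 := inv_mul_cancel₀ hσ.ne'
    linear_combination this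
  have hσ2 : 0 ≤ 1 - σ^2 := by nlinarith only [hσ, hσ1]
  have hG : 4 * σ * |q.im| ≤ (1 - σ^2) * (A * (2/3 * x * (1311/1000) * ((r:ℝ) / ((r:ℝ)+1)) *
      (1 - 158/1000 * η * ((r:ℝ)^2 - 4)))) := by
    have h1 := mul_le_mul_of_nonneg_left him (by positivity : 0 ≤ 4 * σ)
    refine h1.trans (le_of_eq ?_)
    have hxx : |e.im| = x * f σ 1 := hxf.symm
    rw [hxx]
    have hr1 : ((r:ℝ)+1) ≠ 0 := by positivity
    push_cast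
    rw [hA]
    have e1 : 4 * σ * (x * f σ 1 * (1311 / 1000) / ((r:ℝ) + 1) *
        (r * ((r:ℝ) ^ 2 - 1) / 6 - 79 / 100 * η * (r * ((r:ℝ) ^ 2 - 1) * ((r:ℝ) ^ 2 - 4)) / 30)) =
        (σ * f σ 1) * (((r:ℝ)^2 - 1) * (2/3 * x * (1311/1000) * ((r:ℝ) / ((r:ℝ)+1)) *
      (1 - 158/1000 * η * ((r:ℝ)^2 - 4)))) := by
      field_simp
      ring
    rw [e1, hfs]
  have hy3 : 4 * σ * |q.im| ≤ (1-σ^2) * (‖q‖^2 - 1) := by
    refine hG.trans ?_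
    apply mul_le_mul_of_nonneg_left _ hσ2
    exact le_trans (mul_le_mul_of_nonneg_left hfin hA0) hB
  have hq1 : 0 ≤ ‖q‖^2 - 1 := by
    have h1 : 0 ≤ 4 * σ * |q.im| := by positivity
    have h2 : 0 ≤ (1-σ^2) * (‖q‖^2 - 1) := h1.trans hy3
    have h3 : 0 < 1 - σ^2 := by nlinarith only [hσ, hσ1]
    exact nonneg_of_mul_nonneg_right h2 h3
  exact conclude σ hσ q hq1 hy3

lemma core2 (σ : ℝ) (hσ : 0 < σ) (hσ1 : σ < 1) (e : ℂ) (he : ‖e‖ = 1) (h0 : 0 ≤ e.re)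
    (hk : ‖1 - ((σ:ℂ) * e)^2‖ ≤ 2 * (1 - σ^2)) (h12 : 292/1000 ≤ σ^(2*3)) :
    2 * σ * ‖(Q ((σ:ℂ)*e) 2)^2 - 1‖ ≤ (1 + σ^2) * (‖Q ((σ:ℂ)*e) 2‖^2 - 1) := by
  have hD := im_sq_le σ hσ e he hk
  obtain ⟨hF, hCn⟩ := f_N_le' hσ hσ1.le 3 h12
  have hq := (C_quad hσ 3).1
  have hC1 := C_ge hσ 1
  have hCs := C_sq hσ 1
  have hsq := e_sq e he
  have hre1 : e.re ≤ 1 := by nlinarith only [hsq, sq_nonneg e.im, h0]
  have hf0 := f_nonneg hσ hσ1.le 1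
  have ht := term_re_im σ hσ e he 1
  have hq2 : Q ((σ:ℂ)*e) 2 = ((σ:ℂ) * e)⁻¹ ^ 1 + ((σ:ℂ) * e)^1 := by
    show Q ((σ:ℂ)*e) (0+2) = _
    rw [Q, Q]; simp
  obtain ⟨q, hq'⟩ : ∃ q, q = Q ((σ:ℂ)*e) 2 := ⟨_, rfl⟩
  rw [← hq2, ← hq'] at ht
  rw [← hq']
  rw [pow_one] at ht
  obtain ⟨hre, him⟩ := ht
  have hδ : C σ 1 - 2 ≤ 44/1000 := by push_cast at hq; linarith
  have hf2 : (f σ 1)^2 ≤ 18/100 := by
    have : (f σ 1)^2 = (C σ 1 - 2) * (C σ 1 + 2) := by linear_combination -hCs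
    rw [this]; nlinarith only [hδ, hC1]
  have hi2 : e.im^2 ≤ 135/1000 := by linarith
  have hi : |e.im| ≤ 37/100 := by
    apply abs_le_of_sq_le_sq _ (by norm_num); linarith
  have hre3 : 865/1000 ≤ e.re := by
    by_contra hcon
    push Not at hcon
    nlinarith only [hsq, hi2, hcon, h0]
  have hq1 : 173/100 ≤ q.re := by
    rw [hre]; nlinarith only [hC1, hre3]
  have hqn : ‖q‖^2 = q.re^2 + q.im^2 := by
    rw [Complex.sq_norm, Complex.normSq_apply]; ring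
  have hB : 148/100 ≤ ‖q‖^2 - 1 := by
    rw [hqn]; nlinarith only [sq_nonneg q.im, hq1]
  have hfs : σ * f σ 1 = 1 - σ^2 := by
    unfold f
    have : σ⁻¹ * σ = 1 := inv_mul_cancel₀ hσ.ne'
    linear_combination this
  have hσ2 : 0 ≤ 1 - σ^2 := by nlinarith only [hσ, hσ1]
  apply conclude σ hσ q (by linarith)
  have h1 : 4 * σ * |q.im| = (1 - σ^2) * (4 * |e.im|) := by
    rw [him, abs_neg, abs_mul, abs_of_nonneg hf0, ← hfs]; ring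
  rw [h1]
  apply mul_le_mul_of_nonneg_left _ hσ2
  linarith

lemma core (σ : ℝ) (hσ : 0 < σ) (hσ1 : σ < 1) (e : ℂ) (he : ‖e‖ = 1) (h0 : 0 ≤ e.re)
    (hk : ‖1 - ((σ:ℂ) * e)^2‖ ≤ 2 * (1 - σ^2)) (r : ℕ) (hr : 1 ≤ r)
    (h12 : 292/1000 ≤ σ^(2*(r+1))) :
    2 * σ * ‖(Q ((σ:ℂ)*e) r)^2 - 1‖ ≤ (1 + σ^2) * (‖Q ((σ:ℂ)*e) r‖^2 - 1) := by
  rcases Nat.lt_or_ge r 3 with h | h
  · interval_cases r
    · simp [Q]
    · exact core2 σ hσ hσ1 e he h0 hk h12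
  · exact core3 σ hσ hσ1 e he h0 hk r h h12

/-- a square root with nonnegative real part -/
lemma exists_sqrt (t : ℂ) (σ : ℝ) (h0 : 0 < σ) (ht : ‖t‖ = σ^2) :
    ∃ e : ℂ, ‖e‖ = 1 ∧ 0 ≤ e.re ∧ ((σ:ℂ) * e)^2 = t := by
  obtain ⟨s, hs⟩ := IsAlgClosed.exists_pow_nat_eq t (n := 2) (by norm_num)
  have hns : ‖s‖ = σ := by
    have : ‖s‖^2 = σ^2 := by rw [← norm_pow, hs, ht]
    exact (pow_left_inj₀ (norm_nonneg _) h0.le (by norm_num)).mp this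
  have hσc : (σ:ℂ) ≠ 0 := by exact_mod_cast h0.ne'
  have hn : ‖s / σ‖ = 1 := by
    rw [norm_div, hns, Complex.norm_real, Real.norm_of_nonneg h0.le, div_self h0.ne']
  have hm : (σ:ℂ) * (s / σ) = s := by field_simp
  rcases le_total 0 (s / σ).re with h | h
  · exact ⟨s / σ, hn, h, by rw [hm, hs]⟩
  · refine ⟨-(s / σ), by rw [norm_neg, hn], by rw [Complex.neg_re]; linarith, ?_⟩
    rw [mul_neg, neg_sq, hm, hs]

/-- **(R) for `ρ^(r+1) ≥ 0.292`** in the form with a real square root `σ` of `ρ = ‖t‖`. -/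
theorem Rp' {t : ℂ} {σ : ℝ} (hσ : 0 < σ) (hσ1 : σ < 1) (ht : ‖t‖ = σ^2)
    (hk : ‖1 - t‖ ≤ 2 * (1 - σ^2)) {r : ℕ} (hr : 1 ≤ r) (hh : 292/1000 ≤ (σ^2)^(r+1)) :
    2 * σ * (‖1 - t^(r-1)‖ * ‖1 - t^(r+1)‖) + (σ^2)^(r-1) * (1 + σ^2) * ‖1 - t‖^2 ≤
      (1 + σ^2) * ‖1 - t^r‖^2 := by
  obtain ⟨e, he, h0, hst⟩ := exists_sqrt t σ hσ ht
  obtain ⟨s, hs⟩ : ∃ s, s = (σ:ℂ) * e := ⟨_, rfl⟩
  rw [← hs] at hst
  have hs0 : s ≠ 0 := by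
    intro h
    rw [h] at hst
    rw [← hst] at ht
    simp at ht
    exact (pow_pos hσ 2).ne' ht.symm
  have hns : ‖s‖ = σ := by
    rw [hs, norm_mul, he, mul_one, Complex.norm_real, Real.norm_of_nonneg hσ.le]
  have hc := core σ hσ hσ1 e he h0 (by rw [← hs, hst]; exact hk) r hr (by rw [pow_mul]; exact hh)
  rw [← hs] at hc
  have hr' := one_sub_pow s hs0 r
  have h1 := one_sub_pow s hs0 1
  rw [hst] at hr' h1
  rw [pow_one] at h1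
  have hQ1 : Q s 1 = 1 := rfl
  rw [hQ1, mul_one] at h1
  obtain ⟨w, hw⟩ : ∃ w, w = s⁻¹ - s := ⟨_, rfl⟩
  rw [← hw] at hr' h1
  have hprod : (1 - t^(r-1)) * (1 - t^(r+1)) = s^(2*r) * w^2 * ((Q s r)^2 - 1) := by
    have e1 : (1 - t^(r-1)) * (1 - t^(r+1)) = (1 - t^r)^2 - t^(r-1) * (1 - t)^2 := by
      obtain ⟨k, rfl⟩ : ∃ k, r = k + 1 := ⟨r - 1, by omega⟩
      rw [Nat.add_sub_cancel]
      ring
    have e2 : t^(r-1) * s^2 = s^(2*r) := by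
      rw [← hst, ← pow_mul, ← pow_add]
      congr 1; omega
    rw [e1, hr', h1]
    rw [pow_one] at *
    calc (s^r * (w * Q s r))^2 - t^(r-1) * (s * w)^2
        = s^(2*r) * w^2 * (Q s r)^2 - (t^(r-1) * s^2) * w^2 := by ring
      _ = _ := by rw [e2]; ring
  have hn1 : ‖1 - t^(r-1)‖ * ‖1 - t^(r+1)‖ = σ^(2*r) * ‖w‖^2 * ‖(Q s r)^2 - 1‖ := by
    rw [← norm_mul, hprod, norm_mul, norm_mul, norm_pow, norm_pow, hns]
  have hn2 : ‖1 - t^r‖^2 = σ^(2*r) * ‖w‖^2 * ‖Q s r‖^2 := by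
    rw [hr', norm_mul, norm_mul, norm_pow, hns]; ring
  have hn3 : (σ^2)^(r-1) * ‖1 - t‖^2 = σ^(2*r) * ‖w‖^2 := by
    rw [h1, norm_mul, norm_pow, hns]
    have : (σ^2)^(r-1) * σ^2 = σ^(2*r) := by
      rw [← pow_mul, ← pow_add]; congr 1; omega
    rw [pow_one]
    calc (σ^2)^(r-1) * (σ * ‖w‖)^2 = ((σ^2)^(r-1) * σ^2) * ‖w‖^2 := by ring
      _ = _ := by rw [this]
  rw [hn1, hn2]
  have h5 : (σ^2)^(r-1) * (1 + σ^2) * ‖1 - t‖^2 = (1 + σ^2) * (σ^(2*r) * ‖w‖^2) := by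
    rw [← hn3]; ring
  rw [h5]
  have h6 : 0 ≤ σ^(2*r) * ‖w‖^2 := by positivity
  have := mul_le_mul_of_nonneg_left hc h6
  linarith

/-- **(R) for `ρ^(r+1) ≥ 0.292`.** -/
theorem Rp {t : ℂ} (h0 : t ≠ 0) (h1 : ‖t‖ < 1) (hk : ‖1 - t‖ ≤ 2 * (1 - ‖t‖)) {r : ℕ}
    (hr : 1 ≤ r) (hh : 292/1000 ≤ ‖t‖^(r+1)) :
    2 * Real.sqrt ‖t‖ * (‖1 - t^(r-1)‖ * ‖1 - t^(r+1)‖) + ‖t‖^(r-1) * (1 + ‖t‖) * ‖1 - t‖^2 ≤
      (1 + ‖t‖) * ‖1 - t^r‖^2 := by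
  have ht0 : 0 < ‖t‖ := norm_pos_iff.mpr h0
  obtain ⟨σ, hσd⟩ : ∃ σ, σ = Real.sqrt ‖t‖ := ⟨_, rfl⟩
  have hσ : 0 < σ := by rw [hσd]; exact Real.sqrt_pos.mpr ht0
  have hσ2 : σ^2 = ‖t‖ := by rw [hσd]; exact Real.sq_sqrt ht0.le
  have hσ1 : σ < 1 := by
    by_contra hcon
    push Not at hcon
    nlinarith only [hcon, hσ2, h1]
  have := Rp' hσ hσ1 hσ2.symm (by rw [hσ2]; exact hk) hr (by rw [hσ2]; exact hh)
  rw [hσ2] at this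
  rw [← hσd]
  exact this

end H52LZ

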