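import Mathlib

/-! Basic facts on `σ⁻ᵐ ± σᵐ`, unit complex numbers and symmetric quantum integers (MP_ea8a26). -/

namespace H52LZ

/-- `f x m = x⁻ᵐ - xᵐ`. -/
noncomputable def f (x : ℝ) (m : ℕ) : ℝ := (x⁻¹) ^ m - x ^ m

/-- `C x m = x⁻ᵐ + xᵐ`. -/
noncomputable def C (x : ℝ) (m : ℕ) : ℝ := (x⁻¹) ^ m + x ^ m

lemma f_zero (x : ℝ) : f x 0 = 0 := by simp [f]

lemma f_step {x : ℝ} (hx : 0 < x) (m : ℕ) : f x (m+2) = f x m + f x 1 * C x (m+1) := by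
  unfold f C
  have h : x⁻¹ * x = 1 := inv_mul_cancel₀ hx.ne'
  have e : (x⁻¹)^(m+1) * x = (x⁻¹)^m := by rw [pow_succ, mul_assoc, h, mul_one]
  have e2 : x^(m+1) * x⁻¹ = x^m := by rw [pow_succ, mul_assoc, mul_comm x, h, mul_one]
  have e3 : (x⁻¹)^(m+2) = (x⁻¹)^(m+1) * x⁻¹ := by ring
  have e4 : x^(m+2) = x^(m+1) * x := by ring
  rw [e3, e4]
  linear_combination e - e2

lemma f_nonneg {x : ℝ} (hx : 0 < x) (h1 : x ≤ 1) (m : ℕ) : 0 ≤ f x m := by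
  unfold f
  have h2 : 1 ≤ x⁻¹ := (one_le_inv₀ hx).mpr h1
  have h3 : 1 ≤ (x⁻¹)^m := one_le_pow₀ h2
  have h4 : x^m ≤ 1 := pow_le_one₀ hx.le h1
  linarith

lemma C_ge {x : ℝ} (hx : 0 < x) (m : ℕ) : 2 ≤ C x m := by
  unfold C
  rw [inv_pow]
  have h : 0 < x^m := pow_pos hx m
  have h2 : (x^m)⁻¹ * x^m = 1 := inv_mul_cancel₀ h.ne'
  have h3 : 0 < (x^m)⁻¹ := inv_pos.mpr h
  nlinarith [sq_nonneg ((x^m)⁻¹ - x^m)]

lemma C_sq {x : ℝ} (hx : 0 < x) (m : ℕ) : C x m ^ 2 = f x m ^ 2 + 4 := by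
  unfold C f
  rw [inv_pow]
  have h : 0 < x^m := pow_pos hx m
  have h2 : (x^m)⁻¹ * x^m = 1 := inv_mul_cancel₀ h.ne'
  linear_combination 4 * h2

/-- second difference is nonnegative -/
lemma f_conv {x : ℝ} (hx : 0 < x) (h1 : x ≤ 1) (m : ℕ) :
    2 * f x (m+1) ≤ f x (m+2) + f x m := by
  have h0 := f_nonneg hx h1 (m+1)
  have h : x⁻¹ * x = 1 := inv_mul_cancel₀ hx.ne'
  have key : f x (m+2) + f x m = (x⁻¹ + x) * f x (m+1) := by
    unfold f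
    have e : (x⁻¹)^(m+1) * x = (x⁻¹)^m := by rw [pow_succ, mul_assoc, h, mul_one]
    have e2 : x^(m+1) * x⁻¹ = x^m := by rw [pow_succ, mul_assoc, mul_comm x, h, mul_one]
    have e3 : (x⁻¹)^(m+2) = (x⁻¹)^(m+1) * x⁻¹ := by ring
    have e4 : x^(m+2) = x^(m+1) * x := by ring
    rw [e3, e4]
    linear_combination -e + e2
  have h2 : 2 ≤ x⁻¹ + x := by
    have := C_ge hx 1
    simpa [C] using this
  rw [key]
  nlinarith

lemma f_ratio_step {x : ℝ} (hx : 0 < x) (h1 : x ≤ 1) (m : ℕ) :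
    (m+1 : ℝ) * f x m ≤ m * f x (m+1) := by
  induction m with
  | zero => simp [f_zero]
  | succ m ih =>
    have h := f_conv hx h1 m
    have hm : (0:ℝ) ≤ m := Nat.cast_nonneg m
    push_cast
    nlinarith

lemma f_ratio {x : ℝ} (hx : 0 < x) (h1 : x ≤ 1) (m N : ℕ) (h : m ≤ N) :
    (N : ℝ) * f x m ≤ m * f x N := by
  induction N, h using Nat.le_induction with
  | base => exact le_refl _
  | succ N hN ih =>
    rcases Nat.eq_zero_or_pos N with h0 | h0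
    · subst h0
      have : m = 0 := by omega
      subst this
      simp [f_zero]
    · have hN0 : (0:ℝ) < N := by exact_mod_cast h0
      have h2 := f_ratio_step hx h1 N
      have hm : (0:ℝ) ≤ m := Nat.cast_nonneg m
      push_cast
      have h3 : (N:ℝ) * ((N+1) * f x m) ≤ N * (m * f x (N+1)) := by
        calc (N:ℝ) * ((N+1) * f x m) = (N+1) * (N * f x m) := by ring
          _ ≤ (N+1) * (m * f x N) := by
              apply mul_le_mul_of_nonneg_left ih; positivity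
          _ = m * ((N+1) * f x N) := by ring
          _ ≤ m * (N * f x (N+1)) := mul_le_mul_of_nonneg_left h2 hm
          _ = N * (m * f x (N+1)) := by ring
      exact le_of_mul_le_mul_left h3 hN0

/-! ### unit complex numbers -/

lemma im_pow_le (e : ℂ) (he : ‖e‖ = 1) (m : ℕ) : |(e^m).im| ≤ m * |e.im| := by
  induction m with
  | zero => simp
  | succ m ih =>
    have h1 : (e^(m+1)).im = (e^m).re * e.im + (e^m).im * e.re := by
      rw [pow_succ, Complex.mul_im]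
    have h2 : ‖e^m‖ = 1 := by rw [norm_pow, he, one_pow]
    have h3 : |(e^m).re| ≤ 1 := h2 ▸ Complex.abs_re_le_norm (e^m)
    have h4 : |e.re| ≤ 1 := he ▸ Complex.abs_re_le_norm e
    rw [h1]
    have h5 : |(e^m).re * e.im| ≤ 1 * |e.im| := by
      rw [abs_mul]; exact mul_le_mul_of_nonneg_right h3 (abs_nonneg _)
    have h6 : |(e^m).im * e.re| ≤ |(e^m).im| * 1 := by
      rw [abs_mul]; exact mul_le_mul_of_nonneg_left h4 (abs_nonneg _)
    have h7 := abs_add_le ((e^m).re * e.im) ((e^m).im * e.re)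
    push_cast
    linarith

lemma norm_one_sub_sq (e : ℂ) (he : ‖e‖ = 1) : ‖1 - e‖^2 = 2 * (1 - e.re) := by
  have h1 : e.re^2 + e.im^2 = 1 := by
    have := Complex.sq_norm e
    rw [he, Complex.normSq_apply] at this
    nlinarith
  rw [Complex.sq_norm, Complex.normSq_apply]
  simp
  nlinarith

lemma norm_one_sub_pow (e : ℂ) (he : ‖e‖ = 1) (m : ℕ) : ‖1 - e^m‖ ≤ m * ‖1 - e‖ := by
  induction m with
  | zero => simp
  | succ m ih =>
    have h1 : 1 - e^(m+1) = (1 - e^m) + e^m * (1 - e) := by ring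
    rw [h1]
    have h2 : ‖e^m * (1-e)‖ = ‖1-e‖ := by rw [norm_mul, norm_pow, he, one_pow, one_mul]
    have h3 := norm_add_le (1-e^m) (e^m*(1-e))
    push_cast
    linarith

lemma re_pow_ge (e : ℂ) (he : ‖e‖ = 1) (m : ℕ) : 1 - m^2 * (1 - e.re) ≤ (e^m).re := by
  have h1 := norm_one_sub_pow e he m
  have h2 := norm_one_sub_sq e he
  have h3 := norm_one_sub_sq (e^m) (by rw [norm_pow, he, one_pow])
  have h4 : ‖1-e^m‖^2 ≤ (m * ‖1-e‖)^2 := pow_le_pow_left₀ (norm_nonneg _) h1 2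
  rw [h3, mul_pow, h2] at h4
  linarith

/-- the symmetric quantum integers -/
noncomputable def Q (s : ℂ) : ℕ → ℂ
  | 0 => 0
  | 1 => 1
  | (r+2) => Q s r + ((s⁻¹)^(r+1) + s^(r+1))

lemma Q_mul (s : ℂ) (hs : s ≠ 0) : ∀ r : ℕ, (s⁻¹ - s) * Q s r = (s⁻¹)^r - s^r
  | 0 => by simp [Q]
  | 1 => by simp [Q]
  | (r+2) => by
    have ih := Q_mul s hs r
    have h : s⁻¹ * s = 1 := inv_mul_cancel₀ hs
    rw [Q, mul_add, ih]
    have e : (s⁻¹)^(r+1) * s = (s⁻¹)^r := by rw [pow_succ, mul_assoc, h, mul_one]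
    have e2 : s^(r+1) * s⁻¹ = s^r := by rw [pow_succ, mul_assoc, mul_comm s, h, mul_one]
    have e3 : (s⁻¹)^(r+2) = (s⁻¹)^(r+1) * s⁻¹ := by ring
    have e4 : s^(r+2) = s^(r+1) * s := by ring
    rw [e3, e4]
    linear_combination -e + e2

lemma one_sub_pow (s : ℂ) (hs : s ≠ 0) (r : ℕ) :
    1 - (s^2)^r = s^r * ((s⁻¹ - s) * Q s r) := by
  rw [Q_mul s hs, mul_sub, ← mul_pow, mul_inv_cancel₀ hs, one_pow]
  ring

/-- data: `s = σ e`, `‖e‖ = 1` -/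
lemma term_re_im (σ : ℝ) (hσ : 0 < σ) (e : ℂ) (he : ‖e‖ = 1) (m : ℕ) :
    (((σ:ℂ) * e)⁻¹ ^ m + ((σ:ℂ) * e)^m).re = C σ m * (e^m).re ∧
    (((σ:ℂ) * e)⁻¹ ^ m + ((σ:ℂ) * e)^m).im = - (f σ m * (e^m).im) := by
  have hinv : e⁻¹ = (starRingEnd ℂ) e := by
    rw [Complex.inv_def, Complex.normSq_eq_norm_sq, he]; simp
  have h1 : ((σ:ℂ) * e)⁻¹ ^ m = ((σ⁻¹ ^ m : ℝ) : ℂ) * (starRingEnd ℂ) (e^m) := by
    rw [mul_inv, mul_pow, hinv, map_pow]; push_cast; ring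
  have h2 : ((σ:ℂ) * e)^m = ((σ^m : ℝ) : ℂ) * e^m := by
    rw [mul_pow]; push_cast; ring
  rw [h1, h2]
  constructor
  · rw [Complex.add_re, Complex.re_ofReal_mul, Complex.re_ofReal_mul, Complex.conj_re]
    unfold C; ring
  · rw [Complex.add_im, Complex.im_ofReal_mul, Complex.im_ofReal_mul, Complex.conj_im]
    unfold f; ring

lemma e_sq (e : ℂ) (he : ‖e‖ = 1) : e.re^2 + e.im^2 = 1 := by
  have := Complex.sq_norm e
  rw [he, Complex.normSq_apply] at this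
  nlinarith

lemma im_sq_le (σ : ℝ) (hσ : 0 < σ) (e : ℂ) (he : ‖e‖ = 1)
    (hk : ‖1 - ((σ:ℂ) * e)^2‖ ≤ 2 * (1 - σ^2)) : e.im^2 ≤ 3/4 * f σ 1 ^ 2 := by
  have h1 := e_sq e he
  have h2 : ‖1 - ((σ:ℂ) * e)^2‖^2 = (1 - σ^2)^2 + 4 * σ^2 * e.im^2 := by
    rw [Complex.sq_norm, Complex.normSq_apply]
    have hre : (1 - ((σ:ℂ) * e)^2).re = 1 - σ^2 * (e.re^2 - e.im^2) := by
      simp [pow_two]; ring
    have him : (1 - ((σ:ℂ) * e)^2).im = - (σ^2 * (2 * e.re * e.im)) := by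
      simp [pow_two]; ring
    rw [hre, him]
    have : e.re^2 = 1 - e.im^2 := by linarith
    have e3 : (2 * e.re * e.im)^2 = 4 * (1 - e.im^2) * e.im^2 := by
      rw [← this]; ring
    have e4 : (1 - σ^2 * (e.re^2 - e.im^2)) * (1 - σ^2 * (e.re^2 - e.im^2)) +
      -(σ^2 * (2 * e.re * e.im)) * -(σ^2 * (2 * e.re * e.im)) =
      (1 - σ^2 * (e.re^2 - e.im^2))^2 + σ^4 * (2 * e.re * e.im)^2 := by ring
    rw [e4, e3, this]
    ring
  have h3 : ‖1 - ((σ:ℂ) * e)^2‖^2 ≤ (2 * (1 - σ^2))^2 := pow_le_pow_left₀ (norm_nonneg _) hk 2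
  rw [h2] at h3
  have h4 : σ^2 * f σ 1 ^ 2 = (1 - σ^2)^2 := by
    unfold f
    have : σ⁻¹ * σ = 1 := inv_mul_cancel₀ hσ.ne'
    have h5 : σ * (σ⁻¹^1 - σ^1) = 1 - σ^2 := by linear_combination this
    rw [← mul_pow, h5]
  have h5 : 0 < σ^2 := by positivity
  have h6 : σ^2 * e.im^2 ≤ σ^2 * (3/4 * f σ 1^2) := by nlinarith
  exact le_of_mul_le_mul_left h6 h5

lemma norm_sq_sub_one (q : ℂ) : ‖q^2 - 1‖^2 = (‖q‖^2-1)^2 + 4 * q.im^2 := by
  have b : ‖q‖^2 = q.re^2 + q.im^2 := by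
    rw [Complex.sq_norm, Complex.normSq_apply]; ring
  have hre : (q^2 - 1).re = q.re^2 - q.im^2 - 1 := by simp [pow_two]
  have him : (q^2 - 1).im = 2 * q.re * q.im := by simp [pow_two]; ring
  rw [Complex.sq_norm, Complex.normSq_apply, b, hre, him]
  ring

end H52LZ
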