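import Pool.Agent.Helper52.LZ.Basic

/-! Inequality (R) for `ρ^(r+1) ≥ 0.292` (MP_ea8a26). -/

namespace H52LZ

lemma C_quad {x : ℝ} (hx : 0 < x) : ∀ m : ℕ,
    2 + (m:ℝ)^2 * (C x 1 - 2) ≤ C x m ∧ (2*m+1) * (C x 1 - 2) ≤ C x (m+1) - C x m
  | 0 => by
    have : C x 0 = 2 := by unfold C; norm_num
    constructor
    · rw [this]; simp
    · rw [this]; simp
  | (m+1) => by
    obtain ⟨h1, h2⟩ := C_quad hx m
    have hrec : C x (m+2) = C x 1 * C x (m+1) - C x m := by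
      unfold C
      have h : x⁻¹ * x = 1 := inv_mul_cancel₀ hx.ne'
      have e : (x⁻¹)^(m+1) * x = (x⁻¹)^m := by rw [pow_succ, mul_assoc, h, mul_one]
      have e2 : x^(m+1) * x⁻¹ = x^m := by rw [pow_succ, mul_assoc, mul_comm x, h, mul_one]
      have e3 : (x⁻¹)^(m+2) = (x⁻¹)^(m+1) * x⁻¹ := by ring
      have e4 : x^(m+2) = x^(m+1) * x := by ring
      rw [e3, e4, pow_one, pow_one]
      linear_combination -e - e2
    have hC1 := C_ge hx 1
    have hCm := C_ge hx (m+1)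
    have hm : (0:ℝ) ≤ m := Nat.cast_nonneg m
    constructor
    · push_cast; nlinarith only [h1, h2]
    · rw [hrec]; push_cast
      have : 0 ≤ (C x 1 - 2) * (C x (m+1) - 2) := mul_nonneg (by linarith) (by linarith)
      nlinarith only [h2, this]

/-- `sin (m φ) / sin φ` in terms of `η = 1 - cos φ` -/
noncomputable def aa (η : ℝ) : ℕ → ℝ
  | 0 => 0
  | 1 => 1
  | (m+2) => 2 * (1 - η) * aa η (m+1) - aa η m

lemma im_pow_eq (e : ℂ) (he : ‖e‖ = 1) : ∀ m : ℕ, (e^m).im = aa (1 - e.re) m * e.im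
  | 0 => by simp [aa]
  | 1 => by simp [aa]
  | (m+2) => by
    have h1 := im_pow_eq e he m
    have h2 := im_pow_eq e he (m+1)
    have hs : e^2 = 2 * (e.re : ℂ) * e - 1 := by
      have hc : e * (starRingEnd ℂ) e = 1 := by
        rw [Complex.mul_conj, Complex.normSq_eq_norm_sq, he]; simp
      have ha : e + (starRingEnd ℂ) e = 2 * (e.re : ℂ) := by
        rw [Complex.add_conj]; push_cast; ring
      linear_combination -hc + e * ha
    have h3 : e^(m+2) = (2 * e.re : ℝ) * e^(m+1) - e^m := by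
      have : e^(m+2) = e^m * e^2 := by ring
      rw [this, hs]; push_cast; ring
    rw [h3, Complex.sub_im, Complex.im_ofReal_mul, h1, h2, aa]
    ring

lemma aa_bounds {η : ℝ} (hη : 0 ≤ η) (M : ℕ) (hM : (M:ℝ)^2 * η ≤ 63/100) : ∀ m : ℕ, m ≤ M →
    ((m:ℝ) - η * ((m:ℝ)^3 - m) / 3 ≤ aa η m ∧ aa η m ≤ m - 79/100 * η * ((m:ℝ)^3 - m) / 3) ∧
    (1 - η * (m * (m+1)) ≤ aa η (m+1) - aa η m ∧
      aa η (m+1) - aa η m ≤ 1 - 79/100 * η * (m * (m+1)))
  | 0, _ => by simp [aa]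
  | (m+1), hmM => by
    obtain ⟨⟨h1, h2⟩, h3, h4⟩ := aa_bounds hη M hM m (by omega)
    have hm : (0:ℝ) ≤ m := Nat.cast_nonneg m
    have hmM' : ((m:ℝ)+1) ≤ M := by exact_mod_cast hmM
    have h5 : ((m:ℝ)+1)^2 * η ≤ 63/100 := by
      refine le_trans (mul_le_mul_of_nonneg_right ?_ hη) hM
      exact pow_le_pow_left₀ (by positivity) hmM' 2
    have hL : ((m+1:ℕ):ℝ) - η * (((m+1:ℕ):ℝ)^3 - ((m+1:ℕ):ℝ)) / 3 ≤ aa η (m+1) := by
      push_cast; nlinarith only [h1, h3]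
    have hU : aa η (m+1) ≤ ((m+1:ℕ):ℝ) - 79/100 * η * (((m+1:ℕ):ℝ)^3 - ((m+1:ℕ):ℝ)) / 3 := by
      push_cast; nlinarith only [h2, h4]
    have hlow : 79/100 * ((m:ℝ)+1) ≤ aa η (m+1) := by
      push_cast at hL
      have : ((m:ℝ)+1) * (((m:ℝ)+1)^2 * η) ≤ ((m:ℝ)+1) * (63/100) :=
        mul_le_mul_of_nonneg_left h5 (by positivity)
      have h6 : 0 ≤ η * ((m:ℝ)+1) := by positivity
      nlinarith only [hL, this, h6]
    have hup : aa η (m+1) ≤ (m:ℝ)+1 := by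
      push_cast at hU
      have : 0 ≤ η * (((m:ℝ)+1)^3 - ((m:ℝ)+1)) := by
        apply mul_nonneg hη
        have : ((m:ℝ)+1)^3 - ((m:ℝ)+1) = ((m:ℝ)+1) * (m * (m+2)) := by ring
        rw [this]; positivity
      linarith
    refine ⟨⟨hL, hU⟩, ?_, ?_⟩
    · rw [aa]; push_cast
      have := mul_le_mul_of_nonneg_left hup hη
      nlinarith only [h3, this]
    · rw [aa]; push_cast
      have := mul_le_mul_of_nonneg_left hlow hη
      nlinarith only [h4, this]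

lemma aa_nonneg {η : ℝ} (hη : 0 ≤ η) (M : ℕ) (hM : (M:ℝ)^2 * η ≤ 63/100) (m : ℕ) (hm : m ≤ M) :
    0 ≤ aa η m := by
  have h1 := (aa_bounds hη M hM m hm).1.1
  have hm0 : (0:ℝ) ≤ m := Nat.cast_nonneg m
  have hmM : (m:ℝ) ≤ M := by exact_mod_cast hm
  have h5 : (m:ℝ)^2 * η ≤ 63/100 :=
    le_trans (mul_le_mul_of_nonneg_right (pow_le_pow_left₀ hm0 hmM 2) hη) hM
  have h6 : (m:ℝ) * ((m:ℝ)^2 * η) ≤ m * (63/100) := mul_le_mul_of_nonneg_left h5 hm0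
  have h7 : 0 ≤ η * m := by positivity
  nlinarith only [h1, h6, h7, hm0]

/-- lower bound of the real part -/
lemma Q_re_ge' (σ : ℝ) (hσ : 0 < σ) (e : ℂ) (he : ‖e‖ = 1) (M : ℕ)
    (hM : (M:ℝ)^2 * (1 - e.re) ≤ 63/100) : ∀ r : ℕ, r ≤ M →
    (r:ℝ) + (r * ((r:ℝ)^2 - 1)) / 6 * ((C σ 1 - 2) - 2 * (1 - e.re))
      - (C σ 1 - 2) * (1 - e.re) * (r * ((r:ℝ)^2 - 1) * (3 * (r:ℝ)^2 - 7)) / 30
      ≤ (Q ((σ:ℂ) * e) r).re
  | 0, _ => by simp [Q]
  | 1, _ => by simp [Q]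
  | (r+2), h => by
    have ih := Q_re_ge' σ hσ e he M hM r (by omega)
    have h1 := (term_re_im σ hσ e he (r+1)).1
    rw [Q, Complex.add_re, h1]
    have h2 := re_pow_ge e he (r+1)
    have hη0 : 0 ≤ 1 - e.re := by
      have := norm_one_sub_sq e he
      nlinarith only [sq_nonneg ‖1-e‖, this]
    have h3 : ((r+1 : ℕ):ℝ)^2 * (1 - e.re) ≤ 63/100 := by
      refine le_trans ?_ hM
      apply mul_le_mul_of_nonneg_right _ hη0
      have : ((r+1:ℕ):ℝ) ≤ M := by exact_mod_cast (by omega : r+1 ≤ M)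
      exact pow_le_pow_left₀ (by positivity) this 2
    have h4 := (C_quad hσ (r+1)).1
    have hC1 := C_ge hσ 1
    set δ := C σ 1 - 2 with hδ
    set η := 1 - e.re with hηd
    have h5 : (2 + ((r+1:ℕ):ℝ)^2 * δ) * (1 - ((r+1:ℕ):ℝ)^2 * η) ≤ C σ (r+1) * (e^(r+1)).re := by
      apply mul_le_mul h4 h2 (by linarith)
      linarith [C_ge hσ (r+1)]
    refine le_trans (le_of_eq ?_) (add_le_add ih h5)
    push_cast
    ring

/-- upper bound of the imaginary part -/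
lemma Q_im_le' (σ : ℝ) (hσ : 0 < σ) (hσ1 : σ ≤ 1) (e : ℂ) (he : ‖e‖ = 1) (n : ℕ) (hn : 1 ≤ n)
    (F : ℝ) (hF : f σ n ≤ F) (hM : (n:ℝ)^2 * (1 - e.re) ≤ 63/100) : ∀ r : ℕ, r ≤ n →
    |(Q ((σ:ℂ) * e) r).im| ≤ (|e.im| * F / n) * ((r * ((r:ℝ)^2 - 1)) / 6
      - 79/100 * (1 - e.re) * (r * ((r:ℝ)^2 - 1) * ((r:ℝ)^2 - 4)) / 30)
  | 0, _ => by simp [Q]
  | 1, _ => by simp [Q]
  | (r+2), h => by
    have ih := Q_im_le' σ hσ hσ1 e he n hn F hF hM r (by omega)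
    have h1 := (term_re_im σ hσ e he (r+1)).2
    rw [Q, Complex.add_im, h1]
    have hη0 : 0 ≤ 1 - e.re := by
      have := norm_one_sub_sq e he
      nlinarith only [sq_nonneg ‖1-e‖, this]
    have h2 := im_pow_eq e he (r+1)
    have hb := (aa_bounds hη0 n hM (r+1) (by omega)).1.2
    have ha0 := aa_nonneg hη0 n hM (r+1) (by omega)
    have h3 := f_ratio hσ hσ1 (r+1) n (by omega)
    have h5 := f_nonneg hσ hσ1 (r+1)
    have hN0 : (0:ℝ) < n := by exact_mod_cast hn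
    have h6 : f σ (r+1) ≤ ((r+1:ℕ):ℝ) * F / n := by
      rw [le_div_iff₀ hN0, mul_comm]
      refine h3.trans ?_
      apply mul_le_mul_of_nonneg_left hF; positivity
    set η := 1 - e.re with hηd
    have h7 : |-(f σ (r+1) * (e^(r+1)).im)| ≤ (((r+1:ℕ):ℝ) * F / n) *
        ((((r+1:ℕ):ℝ) - 79/100 * η * (((r+1:ℕ):ℝ)^3 - ((r+1:ℕ):ℝ)) / 3) * |e.im|) := by
      rw [abs_neg, abs_mul, abs_of_nonneg h5, h2, abs_mul, abs_of_nonneg ha0]
      apply mul_le_mul h6 _ (by positivity) (le_trans h5 h6)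
      exact mul_le_mul_of_nonneg_right hb (abs_nonneg _)
    refine (abs_add_le _ _).trans ?_
    refine (add_le_add ih h7).trans (le_of_eq ?_)
    push_cast
    field_simp
    ring

end H52LZ
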